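import Pool.Agent.helper92.ISA.Spec
import Pool.Agent.helper67.ISO.PB1

/-!
# Project ISO (MP_069684_lc), general target sets, row PB1: one input length (port of ISO PB1)
-/

set_option autoImplicit false

open Filter Topology

namespace Pool.Agent.ISA

open Pool.Agent.PB Pool.Agent.ISO

open Classical in
theorem PB1_proof (hPRL : ISA.PRL_stmt) (hMLS : ISO.MLS_stmt) (hTBS : ISO.TBS_stmt) : ISA.PB1_stmt := by
  intro n w r s m k1 k2 B S f lam p hm hκ hlam hlam1 hk1 hk2 hmr hf hB ha1 ha2 hp
  obtain ⟨T, hT⟩ := hPRL (2 ^ r) m S k1 lam hm hκ hlam hlam1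
  obtain ⟨A, hA⟩ := hMLS n w r m k2 f lam hlam hlam1 hmr
  have hcard : Fintype.card (Fin r → Bool) = 2 ^ r := by
    rw [Fintype.card_fun, Fintype.card_bool, Fintype.card_fin]
  let e : (Fin r → Bool) ≃ Fin (2 ^ r) := Fintype.equivFinOfCardEq hcard
  let W : Fin (k1 * k2) → BF (n + w) := fun q z =>
    f z && decide (e (lin (A (finProdFinEquiv.symm q).2) fun j => z (Fin.natAdd n j)) ∈ T (finProdFinEquiv.symm q).1)
  have hW : ∀ (i : Fin k1) (j : Fin k2) (x : Fin n → Bool) (y : Fin w → Bool),
      W (finProdFinEquiv (i, j)) (Fin.append x y) = true ↔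
        f (Fin.append x y) = true ∧ e (lin (A j) y) ∈ T i := by
    intro i j x y
    have h1 : (fun j' => Fin.append x y (Fin.natAdd n j')) = y := by
      funext j'
      exact Fin.append_right x y j'
    show (f (Fin.append x y) && decide (e (lin (A (finProdFinEquiv.symm (finProdFinEquiv (i, j))).2)
      fun j' => Fin.append x y (Fin.natAdd n j')) ∈ T (finProdFinEquiv.symm (finProdFinEquiv (i, j))).1)) = true ↔ _
    rw [Equiv.symm_apply_apply, h1, Bool.and_eq_true, decide_eq_true_iff]
  refine ⟨k1 * k2, W, Nat.mul_pos hk1 hk2, by omega, ?_, ?_, ?_⟩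
  · intro q
    have h1 := hTBS n w r s f (W q) (A (finProdFinEquiv.symm q).2)
      ((T (finProdFinEquiv.symm q).1).map e.symm.toEmbedding) hf (by
        intro x y
        have h2 := hW (finProdFinEquiv.symm q).1 (finProdFinEquiv.symm q).2 x y
        have h3 : finProdFinEquiv ((finProdFinEquiv.symm q).1, (finProdFinEquiv.symm q).2) = q :=
          finProdFinEquiv.apply_symm_apply q
        rw [h3] at h2
        rw [h2, Finset.mem_map_equiv, Equiv.symm_symm])
    exact ISO.PB1_mono h1 (by omega)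
  · intro q z hz
    have hz' : (f z && decide (e (lin (A (finProdFinEquiv.symm q).2) fun j => z (Fin.natAdd n j)) ∈
      T (finProdFinEquiv.symm q).1)) = true := hz
    rw [Bool.and_eq_true] at hz'
    exact hz'.1
  · intro x hx1 hxm
    obtain ⟨a1, ha1def⟩ : ∃ a1 : ℝ, a1 = (1 - lam) * crit m S * k1 - m * Real.log (2 ^ r + 1) / lam := ⟨_, rfl⟩
    obtain ⟨a2, ha2def⟩ : ∃ a2 : ℝ, a2 = (1 - lam) * (1 - (m : ℝ) ^ 2 / (2 * 2 ^ r)) * k2 - n * Real.log 2 / lam :=
      ⟨_, rfl⟩
    rw [← ha1def] at ha1 hp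
    rw [← ha2def] at ha2 hp
    have hA' := hA x hxm
    rw [← ha2def] at hA'
    let J : Finset (Fin k2) := Finset.univ.filter fun j =>
      Set.InjOn (lin (A j)) {y : Fin w → Bool | f (Fin.append x y) = true}
    let Kf : Fin k2 → Finset (Fin (2 ^ r)) := fun j =>
      (Finset.univ.filter fun y : Fin w → Bool => f (Fin.append x y) = true).image (fun y => e (lin (A j) y))
    let If : Fin k2 → Finset (Fin k1) := fun j => Finset.univ.filter fun i => (T i ∩ Kf j).card ∈ S
    have hIf : ∀ j, a1 ≤ ((If j).card : ℝ) := by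
      intro j
      have h1 : 1 ≤ (Kf j).card := by
        apply Finset.card_pos.2
        apply Finset.Nonempty.image
        exact Finset.card_pos.1 hx1
      have h2 : (Kf j).card ≤ m := Finset.card_image_le.trans hxm
      have h3 := hT (Kf j) h1 h2
      rw [ha1def]
      have h4 : ((2 ^ r : ℕ) : ℝ) = 2 ^ r := by push_cast; ring
      rw [h4] at h3
      exact h3
    have hS : (J.sigma If).card ≤ (Finset.univ.filter fun q => wit (W q) x ∈ S).card := by
      apply Finset.card_le_card_of_injOn (fun q : (Σ _ : Fin k2, Fin k1) => finProdFinEquiv (q.2, q.1))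
      · rintro ⟨j, i⟩ hq
        rw [Finset.mem_coe, Finset.mem_sigma] at hq
        obtain ⟨hj, hi⟩ := hq
        have hj' := (Finset.mem_filter.1 hj).2
        have hi' : (T i ∩ Kf j).card ∈ S := (Finset.mem_filter.1 hi).2
        rw [Finset.mem_coe, Finset.mem_filter]
        refine ⟨Finset.mem_univ _, ?_⟩
        have h1 := ISO.PB1_wit f (W (finProdFinEquiv (i, j))) (A j) e (T i) x (fun y => hW i j x y) hj'
        show wit (W (finProdFinEquiv (i, j))) x ∈ S
        rw [h1]
        exact hi'
      · rintro ⟨j, i⟩ _ ⟨j', i'⟩ _ h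
        have h1 := finProdFinEquiv.injective h
        have h2 := congrArg Prod.fst h1
        have h3 := congrArg Prod.snd h1
        have h2' : i = i' := h2
        have h3' : j = j' := h3
        rw [h2', h3']
    have hsum : ((J.sigma If).card : ℝ) = ∑ j ∈ J, ((If j).card : ℝ) := by
      rw [Finset.card_sigma]
      push_cast
      rfl
    calc p * ((k1 * k2 : ℕ) : ℝ) ≤ a1 * a2 := hp
      _ = a2 * a1 := mul_comm _ _
      _ ≤ (J.card : ℝ) * a1 := mul_le_mul_of_nonneg_right hA' ha1
      _ = ∑ _j ∈ J, a1 := by rw [Finset.sum_const, nsmul_eq_mul]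
      _ ≤ ∑ j ∈ J, ((If j).card : ℝ) := Finset.sum_le_sum fun j _ => hIf j
      _ = ((J.sigma If).card : ℝ) := hsum.symm
      _ ≤ _ := by exact_mod_cast hS

end Pool.Agent.ISA
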